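import Pool.Agent.TMX.Stmts3

set_option autoImplicit false

namespace Pool.Agent.TMX.H16

open Finset
open Pool.Agent.Helper51_Max (I IsMax)
open Pool.Agent.Helper37_EM

theorem gShape : GShape := by
  intro hDec hVar hTan hGapB hBad N g M hM p p' hG hno
  have hpN := hG.left.1
  have hp'N := hG.right.1
  have hgp : M p = g p := le_antisymm hG.left.2.1 (g_le hM hpN)
  have hgp' : M p' = g p' := le_antisymm hG.right.2.1 (g_le hM hp'N)
  obtain ⟨y, z, z', h1, h2, h3, h4, d1, u1, d2, u2⟩ := hDec.2.1 p p' M hG.lt.le hno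
  have hv : var M p p' = (M p - M y) + ((M z - M y) + ((M z - M z') + (M p' - M z'))) := by
    rw [var_add h1 (h2.trans (h3.trans h4)), var_add h2 (h3.trans h4), var_add h3 h4,
      hVar.2.1 M p y h1 d1, hVar.1 M y z h2 u1, hVar.2.1 M z z' h3 d2, hVar.1 M z' p' h4 u2]
  have hQ : Qv g M p p' = M y + M z' - M z := by
    unfold Qv
    rw [hv, hgp, hgp']
    ring
  have hyz : M y ≤ M z := u1 y z le_rfl h2 le_rfl
  have hzz : M z' ≤ M z := d2 z z' le_rfl h3 le_rfl
  by_cases c1 : M z ≤ M y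
  · left
    refine ⟨z', h1.trans (h2.trans h3), h4, ?_⟩
    rw [hQ]
    linarith
  by_cases c2 : M z ≤ M z'
  · left
    refine ⟨y, h1, h2.trans (h3.trans h4), ?_⟩
    rw [hQ]
    linarith
  push Not at c1 c2
  right
  have hyz' : y < z := lt_of_le_of_ne h2 (by rintro rfl; exact lt_irrefl _ c1)
  have hzz' : z < z' := lt_of_le_of_ne h3 (by rintro rfl; exact lt_irrefl _ c2)
  have hzN : z ≤ N := h3.trans (h4.trans hp'N)
  obtain ⟨r, hr⟩ := hM.attained z hzN
  have hmax : ∀ v, y ≤ v → v ≤ z' → M v ≤ M z := by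
    intro v hv1 hv2
    rcases le_total v z with h | h
    · exact u1 v z hv1 h le_rfl
    · exact d2 z v le_rfl h hv2
  have hb := hBad N g M hM p p' y z z' hG h1 hyz' hzz' h4 c1 c2 hmax
  obtain ⟨hgeo, hi, hj⟩ := hGapB hTan N g M hM y z z' r hyz' hzz' (h4.trans hp'N) c1 c2 hr hb
  exact ⟨y, z, z', r, hgeo, h1, h4, d1, u1, d2, u2, hQ, hi, hj⟩

end Pool.Agent.TMX.H16
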