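import Pool.Agent.TMX.Stmts5

set_option autoImplicit false

/-! Squad TMX, row LR: transfer to the right. -/

namespace Pool.Agent.TMX.H16

open Finset
open Pool.Agent.Helper51_Max (I IsMax)
open Pool.Agent.Helper37_EM (var)

theorem lr : LR := by
  intro hVB hVP hNC hCh N g M hM y z y' r c i j p p' v hB hy'p hpc hcp' hpp' hp'N hpv hvp'
  have hg := hB.geo
  have hyz := hg.yz
  have hzz := hg.zz
  have hrz := hg.rz
  have hrN := hg.rN
  have hMz := hg.Mz
  have hc1 := hB.c1
  have hc2 := hB.c2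
  have hj1 := hB.j1
  have hj3 := hB.j3
  have hj4 := hB.j4
  have h5 := (hCh N g).2.2.2.2
  have h1 := (hCh N g).1
  by_cases hzv : M z ≤ M v
  · -- case 1
    have hV : VG N g p p' (M y + M y' - M z) := hVB N g M hM y z y' r c y y' p p'
      { geo := hg, top := hB.top, c1 := hc1, c2 := hc2, cy := hB.cy, cy' := hB.cy',
        cmin := hB.cmin, geo1 := hg, hY := le_rfl, hY' := le_rfl, pc := hpc, cp := hcp',
        pN := hp'N, Y1 := Or.inl rfl, Y2 := Or.inl rfl }
    refine ⟨M v, _, by linarith, h5 p p' _ hpp' hV, by ring⟩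
  push Not at hzv
  by_cases hc : v ≤ z + r ∧ v ≤ y + r
  · -- case 2
    have hg1 : Geo N g M y z v r :=
      { yz := hyz, zz := by omega, rz := hrz, rN := hrN, hy := hg.hy, hz := hc.1, hC := hc.2,
        opt := hg.opt, My := hg.My, Mz := hzv }
    have hV : VG N g p p' (M y + M v - M z) := hVB N g M hM y z y' r c y v p p'
      { geo := hg, top := hB.top, c1 := hc1, c2 := hc2, cy := hB.cy, cy' := hB.cy',
        cmin := hB.cmin, geo1 := hg1, hY := le_rfl, hY' := by omega, pc := hpc, cp := hcp',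
        pN := hp'N, Y1 := Or.inl rfl, Y2 := Or.inr ⟨hpv, hvp'⟩ }
    refine ⟨M y', _, le_rfl, h5 p p' _ hpp' hV, by ring⟩
  -- case 3
  have hs : ∃ s', c < s' ∧ s' < v ∧ M z ≤ g s' := by
    by_cases hvz : v ≤ z + r
    · have hvy : y + r < v := by
        by_contra hcon
        exact hc ⟨hvz, by omega⟩
      obtain ⟨s', e1, e2, e3⟩ := hNC N g M hM y z v r hyz (by omega) hrz hrN hg.hy hvz hvy
        hg.opt hg.My hzv
      exact ⟨s', by omega, by omega, e3.le⟩
    · exact ⟨j, by omega, by omega, hj4.le⟩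
  obtain ⟨s', e1, e2, e3⟩ := hs
  have hV1 : VG N g p s' (M y + M y' - M z) := hVB N g M hM y z y' r c y y' p s'
    { geo := hg, top := hB.top, c1 := hc1, c2 := hc2, cy := hB.cy, cy' := hB.cy',
      cmin := hB.cmin, geo1 := hg, hY := le_rfl, hY' := le_rfl, pc := hpc, cp := e1.le,
      pN := by omega, Y1 := Or.inl rfl, Y2 := Or.inl rfl }
  have hV2 : VG N g s' p' (M v) := hVP N g M hM s' p' v (M v) e2.le hvp' hp'N le_rfl
  refine ⟨g s', _, by linarith, h1 p s' p' _ _ (h5 p s' _ (by omega) hV1)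
    (h5 s' p' _ (by omega) hV2), by ring⟩

end Pool.Agent.TMX.H16
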