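import Pool.Agent.TMX.Stmts3

set_option autoImplicit false

namespace Pool.Agent.TMX.H16

open Finset
open Pool.Agent.Helper51_Max (I IsMax)
open Pool.Agent.Helper37_EM

theorem twoC : TwoC := by
  intro N g M hM hT p p' y z z' r hG hgeo hpy hz'p' d1 u1 d2 u2 hi' hj i h1 h2
  obtain ⟨i', hi'1, hi'2, hi'3, hi'4⟩ := hi'
  obtain ⟨j, hj1, hj2, hj3, hj4⟩ := hj
  have hyz := hgeo.yz
  have hzz := hgeo.zz
  have hzN := hgeo.rN
  have hMy := hgeo.My
  have hMz := hgeo.Mz
  have hp'N := hG.right.1
  have hgy : g y ≤ M y := g_le hM (by omega)
  have hgz' : g z' ≤ M z' := g_le hM (by omega)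
  by_contra hcon
  push Not at hcon
  rcases lt_or_ge i p with hip | hip
  · -- left
    have hMp : M y < M p := by
      rcases (d1 p y le_rfl hpy le_rfl).lt_or_eq with h | h
      · exact h
      exfalso
      obtain ⟨-, -, a, b, ha, hb, hbN, -, hb2, hmax⟩ := hG.left
      have hzb : b < z := by
        by_contra hc
        push Not at hc
        have := hmax z (by omega) hc
        linarith
      have hMb : M b < M p := by
        rcases hb2 with h | h
        · omega
        · exact h
      rcases le_total b y with h3 | h3
      · have := d1 b y hb h3 le_rfl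
        linarith
      · have := u1 y b le_rfl h3 hzb.le
        linarith
    have hpy' : p < y := lt_of_le_of_ne hpy (by rintro rfl; exact lt_irrefl _ hMp)
    have e1 := hcon y hpy (by omega)
    have e2 := hcon p le_rfl (by omega)
    have e3 := hG.left.2.1
    exact hT i' i p y j (by omega) hip hpy' (by omega) (by omega)
      ⟨by linarith, e2, by linarith, by linarith, by linarith, by linarith⟩
  rcases lt_or_ge p' i with hip' | hip'
  · have hMp : M z' < M p' := by
      rcases (u2 z' p' le_rfl hz'p' le_rfl).lt_or_eq with h | h
      · exact h
      exfalso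
      obtain ⟨-, -, a, b, ha, hb, hbN, ha2, -, hmax⟩ := hG.right
      have hza : z < a := by
        by_contra hc
        push Not at hc
        have := hmax z hc (by omega)
        linarith
      have hMa : M a < M p' := by
        rcases ha2 with h | h
        · omega
        · exact h
      rcases le_total a z' with h3 | h3
      · have := d2 a z' hza.le h3 le_rfl
        linarith
      · have := u2 z' a le_rfl h3 ha
        linarith
    have hpz' : z' < p' := lt_of_le_of_ne hz'p' (by rintro rfl; exact lt_irrefl _ hMp)
    have e1 := hcon z' (by omega) hz'p'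
    have e2 := hcon p' (by omega) le_rfl
    have e3 := hG.right.2.1
    exact hT i' z' p' i j (by omega) hpz' hip' (by omega) (by omega)
      ⟨by linarith, by linarith, by linarith, by linarith, e2, by linarith⟩
  · exact lt_irrefl _ (hcon i hip hip')

end Pool.Agent.TMX.H16
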