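import Pool.Agent.TMX.Stmts

set_option autoImplicit false

namespace Pool.Agent.TMX.H16

open Pool.Agent.Helper37_EM

theorem varS : VarS := by
  refine ⟨?_, ?_, ?_⟩
  · intro u a b hab h
    exact var_mono hab fun i h1 h2 => h i (i + 1) h1 (Nat.le_succ i) h2
  · intro u a b hab h
    exact var_anti hab fun i h1 h2 => h i (i + 1) h1 (Nat.le_succ i) h2
  · intro N u x₁ y₁ x₂ y₂ x₃ h1 h2 h3 h4 h5
    have e1 : var u 0 N = var u 0 x₁ + (var u x₁ y₁ + (var u y₁ x₂ + (var u x₂ y₂ +
        (var u y₂ x₃ + var u x₃ N)))) := by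
      rw [← var_add h4 h5, ← var_add h3 (h4.trans h5), ← var_add h2 (h3.trans (h4.trans h5)),
        ← var_add h1 (h2.trans (h3.trans (h4.trans h5))),
        ← var_add (Nat.zero_le x₁) (h1.trans (h2.trans (h3.trans (h4.trans h5))))]
    have a0 := (abs_le.1 (abs_le_var u (Nat.zero_le x₁))).1
    have a1 := (abs_le.1 (abs_le_var u h1)).2
    have a2 := (abs_le.1 (abs_le_var u h2)).1
    have a3 := (abs_le.1 (abs_le_var u h3)).2
    have a4 := (abs_le.1 (abs_le_var u h4)).1
    have a5 := (abs_le.1 (abs_le_var u h5)).2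
    rw [e1]
    linarith

end Pool.Agent.TMX.H16
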